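import Pool.Agent.Helper903.ES.Main

/-!
# The Burr–Erdős conjecture on Ramsey numbers of trees, odd number of vertices

For odd `n ≥ 3` every tree with `n` vertices has Ramsey number at most `2 n - 3`, and `2 n - 3` is
the greatest Ramsey number of a tree with `n` vertices.

Proof. In a colouring of `K_N`, `N = 2 n - 3`, without a monochromatic copy of the tree, both colour
classes have at most `(n - 2) N / 2` edges by the Erdős–Sós theorem of the starting library
(`ES903.erdos_sos`). Their numbers add up to `N (n - 2)`, so both are equal to `(n - 2) N / 2`, which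
is not an integer. For the star the complete bipartite graph `K_{n-2,n-2}` and its complement are
the colour classes of a colouring of `K_{2n-4}` without a monochromatic copy.
-/

set_option autoImplicit false

namespace Pool.Agent.Results.MP_06e9af_co.BurrErdosOdd

/-- the colouring `col` of the edges of the complete graph on `V` contains a copy of `T` all of whose
edges have the colour `i` -/
def MonoCopy {W V : Type} (T : SimpleGraph W) (col : Sym2 V → Fin 2) (i : Fin 2) : Prop :=
  ∃ f : W ↪ V, ∀ a b, T.Adj a b → col s(f a, f b) = i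

/-- every colouring of the edges of the complete graph `K_N` with two colours contains a
monochromatic copy of `T` -/
def Arrows {W : Type} (T : SimpleGraph W) (N : ℕ) : Prop :=
  ∀ col : Sym2 (Fin N) → Fin 2, ∃ i, MonoCopy T col i

/-- the Ramsey number `R(T)`: the least `N` such that every two-colouring of the edges of `K_N`
contains a monochromatic copy of `T` -/
noncomputable def ramsey {W : Type} (T : SimpleGraph W) : ℕ := sInf {N : ℕ | Arrows T N}

open Finset

/-- the graph of the edges of colour `i` -/
def cls {N : ℕ} (col : Sym2 (Fin N) → Fin 2) (i : Fin 2) : SimpleGraph (Fin N) where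
  Adj u v := u ≠ v ∧ col s(u, v) = i
  symm := ⟨fun u v h => ⟨h.1.symm, by rw [Sym2.eq_swap]; exact h.2⟩⟩
  loopless := ⟨fun u h => h.1 rfl⟩

lemma cls_adj {N : ℕ} (col : Sym2 (Fin N) → Fin 2) (i : Fin 2) (u v : Fin N) :
    (cls col i).Adj u v ↔ u ≠ v ∧ col s(u, v) = i := Iff.rfl

lemma degrees {N : ℕ} (col : Sym2 (Fin N) → Fin 2) [DecidableRel (cls col 0).Adj]
    [DecidableRel (cls col 1).Adj] (v : Fin N) :
    (cls col 0).degree v + (cls col 1).degree v = N - 1 := by
  classical
  have h1 : (cls col 0).neighborFinset v ∪ (cls col 1).neighborFinset v = univ.erase v := by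
    ext u
    simp only [mem_union, SimpleGraph.mem_neighborFinset, cls_adj, mem_erase, mem_univ, and_true]
    constructor
    · rintro (h | h) <;> exact h.1.symm
    · intro h
      have h2 : col s(v, u) = 0 ∨ col s(v, u) = 1 := by
        have := (col s(v, u)).isLt
        omega
      rcases h2 with h2 | h2
      · exact Or.inl ⟨h.symm, h2⟩
      · exact Or.inr ⟨h.symm, h2⟩
  have h2 : Disjoint ((cls col 0).neighborFinset v) ((cls col 1).neighborFinset v) := by
    rw [Finset.disjoint_left]
    intro u h3 h4
    simp only [SimpleGraph.mem_neighborFinset, cls_adj] at h3 h4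
    have := h3.2.symm.trans h4.2
    exact absurd this (by decide)
  have h3 := Finset.card_union_of_disjoint h2
  rw [h1, Finset.card_erase_of_mem (mem_univ _), Finset.card_univ, Fintype.card_fin] at h3
  simpa [SimpleGraph.card_neighborFinset_eq_degree] using h3.symm

theorem arrows_of_odd (n : ℕ) (h3 : 3 ≤ n) (hodd : Odd n) (T : SimpleGraph (Fin n))
    (hT : T.IsTree) : Arrows T (2 * n - 3) := by
  classical
  intro col
  by_contra hcon
  push Not at hcon
  have key : ∀ i : Fin 2, 2 * (cls col i).edgeFinset.card ≤ (n - 2) * (2 * n - 3) := by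
    intro i
    by_contra hlt
    push Not at hlt
    obtain ⟨f, hf⟩ := ES903.erdos_sos (cls col i) (n - 1)
      (by rw [Fintype.card_fin]; have : n - 1 - 1 = n - 2 := by omega
          rw [this]; exact hlt) T hT (by rw [Fintype.card_fin]; omega)
    exact hcon i ⟨f, fun a b hab => (hf a b hab).2⟩
  have hsum : 2 * (cls col 0).edgeFinset.card + 2 * (cls col 1).edgeFinset.card =
      (2 * n - 3) * (2 * n - 4) := by
    rw [← SimpleGraph.sum_degrees_eq_twice_card_edges,
      ← SimpleGraph.sum_degrees_eq_twice_card_edges, ← Finset.sum_add_distrib]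
    rw [Finset.sum_congr rfl (fun v _ => degrees col v), Finset.sum_const, Finset.card_univ,
      Fintype.card_fin, smul_eq_mul]
    congr 1
  have k0 := key 0
  have k1 := key 1
  generalize (cls col 0).edgeFinset.card = x0 at hsum k0
  generalize (cls col 1).edgeFinset.card = x1 at hsum k1
  obtain ⟨m, hm⟩ := hodd
  obtain ⟨l, rfl⟩ : ∃ l, m = l + 1 := ⟨m - 1, by omega⟩
  have e1 : n - 2 = 2 * l + 1 := by omega
  have e2 : 2 * n - 3 = 4 * l + 3 := by omega
  have e3 : 2 * n - 4 = 2 * (2 * l + 1) := by omega
  rw [e1, e2] at k0 k1
  rw [e2, e3] at hsum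
  have e4 : (2 * l + 1) * (4 * l + 3) = 2 * (4 * l * l + 5 * l + 1) + 1 := by ring
  have e5 : (4 * l + 3) * (2 * (2 * l + 1)) = 2 * (2 * (4 * l * l + 5 * l + 1) + 1) := by ring
  rw [e4] at k0 k1
  rw [e5] at hsum
  omega

/-- the colouring of the edges of `K_N` according to whether the ends are on different sides of the
division of the vertices at `m` -/
def split (N m : ℕ) : Sym2 (Fin N) → Fin 2 :=
  Sym2.lift ⟨fun u v => if (u.val < m ↔ v.val < m) then 0 else 1, fun u v => by
    have h : (u.val < m ↔ v.val < m) ↔ (v.val < m ↔ u.val < m) := ⟨Iff.symm, Iff.symm⟩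
    simp only [h]⟩

lemma split_mk (N m : ℕ) (u v : Fin N) :
    split N m s(u, v) = if (u.val < m ↔ v.val < m) then 0 else 1 := rfl

theorem not_arrows_star (n : ℕ) (h3 : 3 ≤ n) (r : Fin n) (N : ℕ) (hN : N ≤ 2 * n - 4) :
    ¬ Arrows (SimpleGraph.starGraph r) N := by
  classical
  intro h
  obtain ⟨i, f, hf⟩ := h (split N (n - 2))
  -- the vertices other than the centre are mapped to one side
  have key : ∃ P : Finset (Fin N), (∀ a, a ≠ r → f a ∈ P) ∧ P.card ≤ n - 2 := by
    have hlow : (Finset.univ.filter (fun x : Fin N => x.val < n - 2)).card ≤ n - 2 := by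
      have := Finset.card_le_card_of_injOn (s := Finset.univ.filter (fun x : Fin N => x.val < n - 2))
        (t := Finset.range (n - 2)) (fun x => x.val)
        (fun x hx => by simpa using hx) (fun x _ y _ hxy => Fin.ext hxy)
      simpa using this
    have hhigh : (Finset.univ.filter (fun x : Fin N => ¬ x.val < n - 2)).card ≤ n - 2 := by
      have := Finset.card_le_card_of_injOn
        (s := Finset.univ.filter (fun x : Fin N => ¬ x.val < n - 2))
        (t := Finset.range (n - 2)) (fun x => x.val - (n - 2))
        (fun x hx => by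
          have h1 : ¬ x.val < n - 2 := by simpa using hx
          have h2 := x.isLt
          simp only [Finset.coe_range, Set.mem_Iio]
          omega)
        (fun x hx y hy hxy => by
          have h1 : ¬ x.val < n - 2 := by simpa using hx
          have h2 : ¬ y.val < n - 2 := by simpa using hy
          have h4 : x.val - (n - 2) = y.val - (n - 2) := hxy
          exact Fin.ext (by omega))
      simpa using this
    have hadj : ∀ a, a ≠ r → split N (n - 2) s(f r, f a) = i := by
      intro a ha
      apply hf
      rw [SimpleGraph.starGraph_adj]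
      tauto
    have hi : i = 0 ∨ i = 1 := by
      have := i.isLt
      omega
    by_cases hr : (f r).val < n - 2
    · rcases hi with rfl | rfl
      · refine ⟨_, fun a ha => Finset.mem_filter.2 ⟨Finset.mem_univ _, ?_⟩, hlow⟩
        have := hadj a ha
        rw [split_mk] at this
        by_contra hc
        rw [if_neg (by tauto)] at this
        exact absurd this (by decide)
      · refine ⟨_, fun a ha => Finset.mem_filter.2 ⟨Finset.mem_univ _, ?_⟩, hhigh⟩
        have := hadj a ha
        rw [split_mk] at this
        intro hc
        rw [if_pos (by tauto)] at this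
        exact absurd this (by decide)
    · rcases hi with rfl | rfl
      · refine ⟨_, fun a ha => Finset.mem_filter.2 ⟨Finset.mem_univ _, ?_⟩, hhigh⟩
        have := hadj a ha
        rw [split_mk] at this
        intro hc
        rw [if_neg (by tauto)] at this
        exact absurd this (by decide)
      · refine ⟨_, fun a ha => Finset.mem_filter.2 ⟨Finset.mem_univ _, ?_⟩, hlow⟩
        have := hadj a ha
        rw [split_mk] at this
        by_contra hc
        rw [if_pos (by tauto)] at this
        exact absurd this (by decide)
  obtain ⟨P, hP, hc⟩ := key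
  have h1 : (Finset.univ.erase r).card ≤ P.card := by
    apply Finset.card_le_card_of_injOn f
    · intro a ha
      have : a ≠ r := by simpa using ha
      exact hP a this
    · exact f.injective.injOn
  rw [Finset.card_erase_of_mem (Finset.mem_univ _), Finset.card_univ, Fintype.card_fin] at h1
  omega

/-- **The Burr–Erdős conjecture for odd `n`.** Every tree on `n` vertices, `n ≥ 3` odd, has Ramsey
number at most `2 n - 3` (every two-colouring of `K_{2n-3}` contains a monochromatic copy), and
`2 n - 3` is the greatest Ramsey number of a tree on `n` vertices. -/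
theorem result (n : ℕ) (h3 : 3 ≤ n) (hodd : Odd n) :
    (∀ T : SimpleGraph (Fin n), T.IsTree → Arrows T (2 * n - 3) ∧ ramsey T ≤ 2 * n - 3) ∧
    IsGreatest {r : ℕ | ∃ T : SimpleGraph (Fin n), T.IsTree ∧ ramsey T = r} (2 * n - 3) := by
  have h1 : ∀ T : SimpleGraph (Fin n), T.IsTree → Arrows T (2 * n - 3) ∧ ramsey T ≤ 2 * n - 3 := by
    intro T hT
    have := arrows_of_odd n h3 hodd T hT
    exact ⟨this, Nat.sInf_le this⟩
  refine ⟨h1, ?_, ?_⟩
  · let r : Fin n := ⟨0, by omega⟩
    have hT : (SimpleGraph.starGraph r).IsTree := SimpleGraph.isTree_starGraph r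
    refine ⟨SimpleGraph.starGraph r, hT, le_antisymm (h1 _ hT).2 ?_⟩
    by_contra hlt
    push Not at hlt
    have hmem : Arrows (SimpleGraph.starGraph r) (ramsey (SimpleGraph.starGraph r)) :=
      Nat.sInf_mem (s := {N : ℕ | Arrows (SimpleGraph.starGraph r) N}) ⟨_, (h1 _ hT).1⟩
    exact not_arrows_star n h3 r _ (by omega) hmem
  · rintro x ⟨T, hT, rfl⟩
    exact (h1 T hT).2

end Pool.Agent.Results.MP_06e9af_co.BurrErdosOdd
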